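import Pool.Agent.Helper2.EG.Stmts

set_option autoImplicit false

namespace Pool.Agent.Helper2.EG

theorem st_STEP : ST_STEP := by
  intro n j Q c m y u hn hSt hmy hy hc
  obtain ⟨x, hmono, hx, hprod, hsum⟩ := hSt
  have hprodpos : 0 < ∏ i, x i := Finset.prod_pos fun i _ => by have := (hx i).1; omega
  have hQ : 0 < Q := by rw [← hprod]; exact Nat.mul_pos hn hprodpos
  refine ⟨Fin.snoc (α := fun _ => ℕ) x y, ?_, ?_, ?_, ?_⟩
  · rw [Fin.strictMono_iff_lt_succ]
    intro i
    rw [Fin.snoc_castSucc]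
    rcases Nat.lt_or_ge ((i : ℕ) + 1) j with h | h
    · have h1 : i.succ = Fin.castSucc (⟨(i : ℕ) + 1, h⟩ : Fin j) := by
        apply Fin.ext
        simp
      rw [h1, Fin.snoc_castSucc]
      apply hmono
      rw [Fin.lt_def]
      exact Nat.lt_succ_self _
    · have h1 : i.succ = Fin.last j := by
        apply Fin.ext
        have := i.2
        simp
        omega
      rw [h1, Fin.snoc_last]
      exact lt_of_le_of_lt (hx i).2 hmy
  · intro i
    induction i using Fin.lastCases with
    | last => rw [Fin.snoc_last]; exact ⟨hy, le_refl _⟩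
    | cast i =>
      rw [Fin.snoc_castSucc]
      exact ⟨(hx i).1, le_trans (hx i).2 hmy.le⟩
  · rw [Fin.prod_univ_castSucc]
    simp only [Fin.snoc_castSucc, Fin.snoc_last]
    rw [← mul_assoc, hprod]
  · rw [Fin.sum_univ_castSucc]
    simp only [Fin.snoc_castSucc, Fin.snoc_last]
    rw [hsum]
    have h1 : (c : ℚ) * y = Q + u := by exact_mod_cast hc
    have h2 : (Q : ℚ) ≠ 0 := by exact_mod_cast hQ.ne'
    have h3 : (y : ℚ) ≠ 0 := by
      have : y ≠ 0 := by omega
      exact_mod_cast this
    have h4 : (n : ℚ) ≠ 0 := by exact_mod_cast hn.ne'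
    push_cast
    field_simp
    linear_combination (-(n : ℚ)) * h1

end Pool.Agent.Helper2.EG
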